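import Mathlib
import Pool.Agent.Lib.MP_44a246_ntUV.US04
import Pool.Agent.Lib.MP_44a246_ntTA.TA05

/-!
# The curve of step 0 has bounded height over the extensions of bounded degree, any number of
contact places
-/

namespace Pool.Agent.Lib.MP_44a246_ntHU

open Pool.Agent.Lib.MP_44a246_nt
open Pool.Agent.Lib.MP_44a246_ntL
open Pool.Agent.Lib.MP_44a246_ntS
open Pool.Agent.Lib.MP_44a246_ntX
open Pool.Agent.Lib.MP_44a246_ntG
open Pool.Agent.Lib.MP_44a246_ntD
open Pool.Agent.Lib.MP_44a246_ntZ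
open Pool.Agent.Lib.MP_44a246_ntC
open Pool.Agent.Lib.MP_44a246_ntI
open Pool.Agent.Lib.MP_44a246_ntUV
open Pool.Agent.Lib.MP_44a246_ntTA
open Pool.Agent.Lib.MP_44a246_ntTK
open Pool.Agent.Lib.MP_e52354_nt
open WithZero Module Polynomial

section

variable {κ L : Type*} [Field κ] [IsAlgClosed κ] [CharZero κ] [Field L] [CharZero L]
  [Algebra κ L]

/-- **The height of the curve**, from a contraction to the degree `d` and any bound for the height of
the space of the rows of its coefficients. Proof: `gh_le_blockU` (ntUV/US03). -/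
theorem gh_le_blockUR (h : IsFF κ L) {n D₀ d a b m r r₀ s : ℕ}
    (ha1 : 1 ≤ a) (hab : a ≤ b) (hb6 : 6 ≤ b)
    (hm : 1 ≤ m) (h100 : 100 * (b * m) ≤ d) (hs3 : 3 ≤ s) (h100s : 100 * s ≤ d)
    (h25 : 50 * (a * s) + 5 ≤ 2 * d) (hrd : r ≤ m * d)
    (X : DatG κ (L := L) n D₀) (hF : FinVJ X) (T : Matrix (M3 d) (M3 D₀) κ)
    {A : L[X][X]} {P : MvPolynomial (Fin 3) L} (hCA : CrvG X a A)
    (hmon : A.leadingCoeff.Monic) (hP : P.IsHomogeneous a) (hPirr : Irreducible P)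
    (hPA : deh P = A) (hr₀ : finrank L X.Ux ≤ r₀) (hrr : r₀ + 1 ≤ r) {E : ℤ}
    (hv : ∀ {J : Finset (Fin (n + 1))} {N : ℕ},
      X.Ux ≤ Submodule.span L (Set.range fun j : ↥J => X.row (X.x j)) →
      finrank L (X.VJ J a A) ≤ N →
      ht κ ((X.VJ J a A).map (T.map (algebraMap κ L)).mulVecLin ⊔
        Submodule.span L {xi d X.p} : Submodule L (M3 d → L)) ≤
        N * (2 * gh κ A + 3 * X.Δ) + gh κ A + (s - 1) * height κ X.x + E)
    (hE : X.Δ ≤ E) (hbig : 27 * (d : ℤ) ^ 2 * E < height κ X.x)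
    (hα21 : 21 * (a * (m * gh κ A)) ≤ height κ X.x)
    (hα : 7 * (gh κ A * (d : ℤ) ^ 2) ≤ 200 * ((s : ℤ) * height κ X.x)) {Δ₂ R₂ : ℤ} (hΔ₂ : 0 ≤ Δ₂)
    (hR₂ : 0 ≤ R₂) (hRC₂ : ∀ J : Finset (Fin (n + 1)), ht κ (RC X J a A) ≤
      finrank L (RC X J a A) * (2 * gh κ A + 3 * Δ₂) + gh κ A + R₂) :
    3 * ((d : ℤ) ^ 2 * gh κ A) ≤ (d : ℤ) ^ 2 * Δ₂ + 23 * R₂ := by
  have hΔ := X.Δ_nonneg
  have hR := X.R_nonneg
  have hE0 : 0 ≤ E := hΔ.trans hE
  have hpos : 0 < height κ X.x :=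
    lt_of_le_of_lt (mul_nonneg (by positivity) hE0) hbig
  have hα0 : 0 ≤ gh κ A := gh_nonneg h hCA.irr.ne_zero
  have h150 : 150 * uI a m ≤ d := uI_150 hab hb6 hm h100
  have h100a : 100 * a ≤ d := by
    have h1 : a * 1 ≤ b * m := Nat.mul_le_mul hab hm
    omega
  have h600 : 600 ≤ d := by
    have h1 : 6 * 1 ≤ b * m := Nat.mul_le_mul hb6 hm
    omega
  have hN1 := numI1 ha1 hab hm h100 hrd
  have hN2 := numC2 h150 hN1
  have hm' : (1 : ℤ) ≤ m := by exact_mod_cast hm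
  have ha1' : (1 : ℤ) ≤ a := by exact_mod_cast ha1
  have had : (100 : ℤ) * a ≤ d := by exact_mod_cast h100a
  have hd300 : (300 : ℤ) ≤ d := by
    have : 300 ≤ d := by omega
    exact_mod_cast this
  have haαH : 21 * ((a : ℤ) * gh κ A) ≤ height κ X.x := by
    refine le_trans ?_ hα21
    have : (a : ℤ) * gh κ A ≤ a * (m * gh κ A) :=
      mul_le_mul_of_nonneg_left (le_mul_of_one_le_left hα0 hm') (Int.natCast_nonneg _)
    linarith
  have hαH : 21 * gh κ A ≤ height κ X.x := by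
    have : gh κ A ≤ a * gh κ A := le_mul_of_one_le_left hα0 ha1'
    linarith
  have hNd : 200 * ((NI r a : ℕ) : ℤ) ≤ 3 * (d : ℤ) ^ 2 := by exact_mod_cast hN2
  have hN0 : (0 : ℤ) ≤ ((NI r a : ℕ) : ℤ) := Int.natCast_nonneg _
  have m1 : 7 * ((d : ℤ) * gh κ A) ≤ 2 * height κ X.x :=
    numC4_a (by linarith) (by exact_mod_cast h100s) hpos hα
  have m2 : ((NI r a : ℕ) : ℤ) * (2 * gh κ A + 3 * X.Δ) + gh κ A + (s - 1) * height κ X.x + E ≤
      2 * s * height κ X.x :=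
    numC4_b (u := ((uI a m : ℕ) : ℤ)) (D := d) (by linarith) (by exact_mod_cast h150) hN0
      (by exact_mod_cast hN1) hNd (by exact_mod_cast hs3) hpos hα0 hαH hα hΔ hE hbig
  obtain ⟨J, hJc, hJ⟩ := exists_J X
  have hJr : J.card ≤ r₀ := by
    rw [hJc]
    exact hr₀
  have hspan : 9 * (a : ℤ) * gh κ A + 3 * a * X.Δ < height κ X.x := by
    have h1 : 3 * (a : ℤ) * X.Δ * 2 ≤ 27 * (d : ℤ) ^ 2 * E := by
      have h2 : 3 * (a : ℤ) * 2 ≤ 27 * (d : ℤ) ^ 2 := by nlinarith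
      calc 3 * (a : ℤ) * X.Δ * 2 = 3 * (a : ℤ) * 2 * X.Δ := by ring
        _ ≤ 27 * (d : ℤ) ^ 2 * E := mul_le_mul h2 hE hΔ (by positivity)
    nlinarith
  have hfin0 : finrank L (X.VJ J a A) ≤ NI r a := by
    have h1 := hF a A P ha1 hCA hmon hP hPA hspan J
    have h2 : (J.card + 1) * (a + 1) ≤ r * (a + 1) := Nat.mul_le_mul_right _ (by omega)
    have h3 : (J.card + 1) * (a + 1) = J.card * (a + 1) + (a + 1) := by ring
    unfold NI
    omega
  have hRC0 : finrank L (RC X J a A) ≤ NI r a :=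
    (Submodule.finrank_mono (by rw [VJ_eq]; exact le_sup_left)).trans hfin0
  obtain ⟨M, hM⟩ : ∃ M : (M3 D₀ → L) →ₗ[L] (M3 d → L),
      M = (T.map (algebraMap κ L)).mulVecLin := ⟨_, rfl⟩
  have hRC : finrank L ((RC X J a A).map M) ≤ NI r a :=
    (Submodule.finrank_map_le _ _).trans hRC0
  -- the small space
  obtain ⟨R', hR'⟩ : ∃ R' : Submodule L (M3 d → L), R' =
      (Submodule.span L {X.row X.y₁}).map M ⊔ Submodule.span L {xi d X.p} := ⟨_, rfl⟩
  have hsup : (RC X J a A).map M ⊔ R' = (X.VJ J a A).map M ⊔ Submodule.span L {xi d X.p} := by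
    rw [hR', VJ_eq, Submodule.map_sup, sup_assoc]
  have hq1 : finrank L R' ≤ 2 := by
    rw [hR']
    refine (Submodule.finrank_add_le_finrank_add_finrank _ _).trans ?_
    have h3 := finrank_span_le_card (R := L) ({X.row X.y₁} : Set (M3 D₀ → L))
    have h4 := finrank_span_le_card (R := L) ({xi d X.p} : Set (M3 d → L))
    have h5 := Submodule.finrank_map_le M (Submodule.span L {X.row X.y₁})
    rw [Set.toFinset_singleton, Finset.card_singleton] at h3 h4
    omega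
  have hht : ht κ ((RC X J a A).map M ⊔ R') ≤ (2 * s : ℕ) * height κ X.x := by
    rw [hsup, hM]
    have h1 := hv hJ hfin0
    push_cast
    linarith
  have hhp : height κ ![1, X.y₁, X.y] = height κ X.x := X.height_p
  have key := gh_mul_le' (a := a) (c := 2 * s) (q := 2)
    (w := 10 * (a * s) + 2) (d := d) (R := (RC X J a A).map M) (R' := R') h ha1
    (by omega) hP hPirr hPA hCA.irr hCA.deg hCA.zero (by rw [hhp]; exact hpos)
    (by rw [hhp]; exact m1)
    (by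
      rw [hR', ← sup_assoc]
      exact Submodule.mem_sup_right (Submodule.mem_span_singleton_self _)) hq1
    (by rw [hhp]; exact hht)
    (by
      have : 5 * a * (2 * s) = 10 * (a * s) := by ring
      omega) (by omega)
  have hRCht : ht κ ((RC X J a A).map M) ≤ finrank L (RC X J a A) *
      (2 * gh κ A + 3 * Δ₂) + gh κ A + R₂ := by
    rw [hM]
    exact (ht_map_const_le h T _).trans (hRC₂ J)
  have hle := key.trans hRCht
  have hle' : gh κ A * ((Fintype.card (M3 (d - (10 * (a * s) + 2))) : ℤ) - ((NI r a : ℕ) : ℤ)) ≤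
      ((NI r a : ℕ) : ℤ) * (2 * gh κ A + 3 * Δ₂) + gh κ A + R₂ := by
    have h1 : (finrank L ((RC X J a A).map M) : ℤ) ≤ ((NI r a : ℕ) : ℤ) := by exact_mod_cast hRC
    have h2 : (finrank L (RC X J a A) : ℤ) ≤ ((NI r a : ℕ) : ℤ) := by exact_mod_cast hRC0
    have h3 := mul_le_mul_of_nonneg_left h1 hα0
    have h4 := mul_le_mul_of_nonneg_right h2 (show 0 ≤ 2 * gh κ A + 3 * Δ₂ by linarith)
    linarith
  refine numI4_c (w := ((10 * (a * s) + 1 : ℕ) : ℤ)) hd300 hNd hα0 hΔ₂ hR₂ le_rfl ?_ ?_ hle'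
  · have : 5 * (10 * (a * s) + 1) ≤ 2 * d := by omega
    exact_mod_cast this
  · have h1 : Fintype.card (M3 (d - (10 * (a * s) + 2))) = N3 (d - (10 * (a * s) + 2)) := card_M3 _
    rw [h1]
    have h2 := two_N3 (d - (10 * (a * s) + 2))
    have h3 : ((d - (10 * (a * s) + 2) : ℕ) : ℤ) = (d : ℤ) - ((10 * (a * s) + 1 : ℕ) : ℤ) - 1 := by
      rw [Nat.cast_sub (by omega)]
      push_cast
      ring
    have h4 : 2 * ((N3 (d - (10 * (a * s) + 2)) : ℕ) : ℤ) =
        (((d - (10 * (a * s) + 2) : ℕ) : ℤ) + 1) * (((d - (10 * (a * s) + 2) : ℕ) : ℤ) + 2) := by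
      exact_mod_cast h2
    rw [h4, h3]
    ring

end

end Pool.Agent.Lib.MP_44a246_ntHU
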