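import Mathlib
import Pool.Agent.Lib.MP_44a246_ntHU.HA01

/-!
# The curve of step 0 has bounded height over the extensions of bounded degree, any number of
contact places: the certificate
-/

namespace Pool.Agent.Lib.MP_44a246_ntHU

open Pool.Agent.Lib.MP_44a246_nt
open Pool.Agent.Lib.MP_44a246_ntL
open Pool.Agent.Lib.MP_44a246_ntS
open Pool.Agent.Lib.MP_44a246_ntX
open Pool.Agent.Lib.MP_44a246_ntG
open Pool.Agent.Lib.MP_44a246_ntK
open Pool.Agent.Lib.MP_44a246_ntD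
open Pool.Agent.Lib.MP_44a246_ntZ
open Pool.Agent.Lib.MP_44a246_ntC
open Pool.Agent.Lib.MP_44a246_ntI
open Pool.Agent.Lib.MP_44a246_ntO (one_le_finrank_aux)
open Pool.Agent.Lib.MP_44a246_ntSH
open Pool.Agent.Lib.MP_44a246_ntUV
open Pool.Agent.Lib.MP_44a246_ntTA
open Pool.Agent.Lib.MP_44a246_ntTK
open Pool.Agent.Lib.MP_e52354_nt
open WithZero Module Polynomial

section

variable {κ L : Type*} [Field κ] [IsAlgClosed κ] [CharZero κ] [Field L] [Algebra κ L]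

/-- there is a curve of degree at most `b` and of height `O (s H / e ^ 2)` through the point -/
def SmallIU {n d : ℕ} (X : DatG κ (L := L) n d) (b e s : ℕ) : Prop :=
  ∃ (a : ℕ) (A : L[X][X]) (P : MvPolynomial (Fin 3) L), 1 ≤ a ∧ a ≤ b ∧ CrvG X a A ∧
    A.leadingCoeff.Monic ∧ P.IsHomogeneous a ∧ Irreducible P ∧ deh P = A ∧
    7 * (gh κ A * (e : ℤ) ^ 2) ≤ 200 * ((s : ℤ) * height κ X.x)

end

section

variable {κ K L : Type*} [Field κ] [IsAlgClosed κ] [CharZero κ] [Field K] [CharZero K]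
  [Field L] [CharZero L] [Algebra κ K] [Algebra κ L] [Algebra K L]
  [IsScalarTower κ K L] [FiniteDimensional K L]

/-- **The curve of small degree has bounded height** over the extensions of bounded degree, for any
number of contact places. -/
theorem gh_le_smallIU_K (hK : IsFF κ K) {n p b q e : ℕ} {d : Fin p → ℕ}
    (X : DatV κ (L := L) n d) (S : Finset (Place κ L))
    (hvS : ∀ w ∉ S, ∀ j, X.val j ≠ 0 → w.1 (X.val j) = vmax w.1 X.x ^ d j)
    {j : Fin p} (hej : e ≤ d j)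
    (hNj : ((sole X S j).card : ℤ) + e * height κ X.x ≤ d j * height κ X.x)
    (O : KDat κ K (X.toDatC.blk j)) (hp : 1 ≤ p) (hb : 6 ≤ b) (hne : n + 2 ≤ (4 * p + 1) * e)
    (hbe : 100 * (b * (4 * p + 1) * (2 * q + 3)) ≤ e)
    (hRq : X.toDatC.R ≤ q * height κ X.x)
    (hbig : 27 * (e : ℤ) ^ 2 * X.toDatC.Δ < height κ X.x)
    (hr : 46 * finrank K L ≤ e ^ 2) (hS : SmallIU (X.toDatC.blk j) b e (2 * q + 3)) :
    ∃ (a : ℕ) (A : L[X][X]), a ≤ b ∧ CrvG (X.toDatC.blk j) a A ∧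
      gh κ A ≤ finrank K L * ∑ᶠ v, (O.B v : ℤ) := by
  classical
  have h : IsFF κ L := hK.of_finite
  obtain ⟨a, A, P, ha1, hab, hCA, hmon, hP, hPirr, hPA, hα⟩ := hS
  refine ⟨a, A, hab, hCA, ?_⟩
  have hΔ := X.toDatC.Δ_nonneg
  have hpos : 0 < height κ X.x := lt_of_le_of_lt (mul_nonneg (by positivity) hΔ) hbig
  have hα0 : 0 ≤ gh κ A := gh_nonneg h hCA.irr.ne_zero
  have e1 : (X.toDatC.blk j).Δ = X.toDatC.Δ := rfl
  have e2 : (X.toDatC.blk j).R = X.toDatC.R := rfl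
  have e3 : height κ (X.toDatC.blk j).x = height κ X.x := rfl
  have hq3 : 3 ≤ 2 * q + 3 := by omega
  have hb1 : b * 1 ≤ b * (4 * p + 1) := Nat.mul_le_mul_left _ (by omega)
  have hbe1 : b * (4 * p + 1) ≤ b * (4 * p + 1) * (2 * q + 3) :=
    Nat.le_mul_of_pos_right _ (by omega)
  have hbe2 : 1 * (2 * q + 3) ≤ b * (4 * p + 1) * (2 * q + 3) :=
    Nat.mul_le_mul_right _ (Nat.mul_pos (by omega) (by omega))
  have hbe3 : a * (2 * q + 3) ≤ b * (2 * q + 3) := Nat.mul_le_mul_right _ hab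
  have hbe4 : b * (2 * q + 3) ≤ b * (4 * p + 1) * (2 * q + 3) :=
    Nat.mul_le_mul_right _ (by omega)
  have hb18 : 6 * 3 ≤ b * (2 * q + 3) := Nat.mul_le_mul hb hq3
  obtain ⟨T, hT⟩ := ht_contact h X S hvS j hej hNj
  have hr₀ : finrank L (X.toDatC.blk j).Ux ≤ n + 1 := by
    refine (finrank_range_le_card (R := L)
      (fun i : Fin (n + 1) => (X.toDatC.blk j).row ((X.toDatC.blk j).x i))).trans ?_
    rw [Fintype.card_fin]
  have hv : ∀ {J : Finset (Fin (n + 1))} {N : ℕ},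
      (X.toDatC.blk j).Ux ≤ Submodule.span L (Set.range fun i : ↥J =>
        (X.toDatC.blk j).row ((X.toDatC.blk j).x i)) →
      finrank L ((X.toDatC.blk j).VJ J a A) ≤ N →
      ht κ (((X.toDatC.blk j).VJ J a A).map (T.map (algebraMap κ L)).mulVecLin ⊔
        Submodule.span L {xi e (X.toDatC.blk j).p} : Submodule L (M3 e → L)) ≤
        N * (2 * gh κ A + 3 * (X.toDatC.blk j).Δ) + gh κ A +
          (((2 * q + 3 : ℕ) : ℤ) - 1) * height κ (X.toDatC.blk j).x +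
          (X.toDatC.blk j).Δ := by
    intro J N hJ hN
    have h6 : (X.toDatC.blk j).Ux ≤ (X.toDatC.blk j).VJ J a A := by
      refine hJ.trans (Submodule.span_le.mpr ?_)
      rintro _ ⟨⟨k, hk⟩, rfl⟩
      exact (X.toDatC.blk j).row_x_mem hCA hk
    have h7 := hT _ h6
    have h8 := ht_VJ_le h (X.toDatC.blk j) hCA (J := J) hN
    rw [e2, e3] at h8
    rw [e1] at h8 ⊢
    rw [e3]
    push_cast
    linarith
  have hΔ₂ : 0 ≤ (finrank K L : ℤ) * ∑ᶠ v, (O.B v : ℤ) :=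
    mul_nonneg (Int.natCast_nonneg _) (finsum_nonneg fun v => Int.natCast_nonneg _)
  have hα21 : 21 * ((a : ℤ) * (((4 * p + 1 : ℕ) : ℤ) * gh κ A)) ≤
      height κ (X.toDatC.blk j).x := by
    refine numTA1 (b := b) (q := ((2 * q + 3 : ℕ) : ℤ)) (d := e) (Int.natCast_nonneg _)
      (by exact_mod_cast hab) (by exact_mod_cast (by omega : 1 ≤ 4 * p + 1))
      (by exact_mod_cast hq3) (by exact_mod_cast (by omega : 1 ≤ b))
      (by exact_mod_cast hbe) hα0 hpos hα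
  have key := gh_le_blockUR h (m := 4 * p + 1) (r := n + 2) (r₀ := n + 1) (s := 2 * q + 3) (d := e)
    ha1 hab hb (by omega) (by omega) hq3 (by omega) (by omega) hne (X.toDatC.blk j)
    (finVJ h (X.toDatC.blk j)) T hCA hmon hP hPirr hPA hr₀ (by omega) (E := X.toDatC.Δ)
    (fun {J N} hJ hN => hv hJ hN) (by rw [e1]) (by rw [e3]; exact hbig) hα21 hα hΔ₂
    (R₂ := 2 * finrank K L * gh κ A) (by positivity) (fun J => by
      have h1 := ht_RCB_K hK O hCA.box hCA.one J (fun t : Fin 0 => (t.elim0 : κ))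
      have h2 : RB (X.toDatC.blk j) (fun t : Fin 0 => algebraMap κ L (t.elim0 : κ)) = ⊥ := by
        unfold RB
        rw [Set.range_eq_empty, Submodule.span_empty]
      rw [h2, sup_bot_eq] at h1
      exact h1)
  have hr' : 46 * (finrank K L : ℤ) ≤ (e : ℤ) ^ 2 := by exact_mod_cast hr
  have h8 : 46 * (finrank K L : ℤ) * gh κ A ≤ (e : ℤ) ^ 2 * gh κ A :=
    mul_le_mul_of_nonneg_right hr' hα0
  have hd0 : (0 : ℤ) < (e : ℤ) ^ 2 := by
    have : (1 : ℤ) ≤ e := by exact_mod_cast (by omega : 1 ≤ e)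
    positivity
  have h9 : (e : ℤ) ^ 2 * gh κ A ≤ (e : ℤ) ^ 2 * (finrank K L * ∑ᶠ v, (O.B v : ℤ)) := by
    have h10 : 0 ≤ (e : ℤ) ^ 2 * gh κ A := by positivity
    linarith
  exact le_of_mul_le_mul_left h9 hd0

/-- **The certificate of the curve of small degree** over the extensions of bounded degree, for any
number of contact places. -/
theorem certV_of_smallIU_K (hK : IsFF κ K) {n p b q e : ℕ} {d : Fin p → ℕ}
    (X : DatV κ (L := L) n d)
    {a₀ : Fin p → (Fin (n + 1) →₀ ℕ) → K} (hXa : X.a = fun j I => algebraMap K L (a₀ j I))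
    (O : OverK κ K X.toDatSC) (hOδ : ∀ w : Place κ L, X.δ w = ramIdx K w.1 * O.δ (below K w))
    (S : Finset (Place κ L))
    (hvS : ∀ w ∉ S, ∀ j, X.val j ≠ 0 → w.1 (X.val j) = vmax w.1 X.x ^ d j)
    {j : Fin p} (hej : e ≤ d j)
    (hNj : ((sole X S j).card : ℤ) + e * height κ X.x ≤ d j * height κ X.x)
    (hb : 6 ≤ b) (hne : n + 2 ≤ (4 * p + 1) * e)
    (hbe : 100 * (b * (4 * p + 1) * (2 * q + 3)) ≤ e)
    (hRq : X.toDatC.R ≤ q * height κ X.x)
    (hr : 46 * finrank K L ≤ e ^ 2) (hS : SmallIU (X.toDatC.blk j) b e (2 * q + 3))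
    (hbig : (27 * (e : ℤ) ^ 2 + 2 * (9 * b + 6 * (n + 1))) * X.toDatC.Δ < height κ X.x) :
    CertV κ b 1 (3 * X.toDatC.Δ) X.x := by
  have h : IsFF κ L := hK.of_finite
  have hΔ : 0 ≤ X.toDatC.Δ := X.toDatC.Δ_nonneg
  have hp : 1 ≤ p := by
    have := j.2
    omega
  have h1 : 0 ≤ 2 * (9 * (b : ℤ) + 6 * (n + 1)) * X.toDatC.Δ := mul_nonneg (by positivity) hΔ
  have h2 : 0 ≤ 27 * (e : ℤ) ^ 2 * X.toDatC.Δ := mul_nonneg (by positivity) hΔ
  have h3 : (27 * (e : ℤ) ^ 2 + 2 * (9 * b + 6 * (n + 1))) * X.toDatC.Δ =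
      27 * (e : ℤ) ^ 2 * X.toDatC.Δ + 2 * (9 * (b : ℤ) + 6 * (n + 1)) * X.toDatC.Δ := by ring
  rw [h3] at hbig
  obtain ⟨a, A, hab, hA, hgA⟩ := gh_le_smallIU_K hK X S hvS hej hNj (kdat X.toDatSC hXa O hOδ j) hp
    hb hne hbe hRq (by linarith) hr hS
  have hgA' : gh κ A ≤ X.toDatC.Δ := hgA.trans (le_of_eq (OverK_Δ hK X.toDatSC O hOδ))
  have hx0 : X.x ≠ 0 := X.x_ne_zero
  have h4 : (9 * (b : ℤ) + 6 * (n + 1)) * (X.toDatC.Δ + X.toDatC.Δ) < height κ X.x := by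
    have h5 : (9 * (b : ℤ) + 6 * (n + 1)) * (X.toDatC.Δ + X.toDatC.Δ) =
        2 * (9 * (b : ℤ) + 6 * (n + 1)) * X.toDatC.Δ := by ring
    linarith
  have key := certV_of_curve h X.toDatSC (N := 1) (fun Q hQ _ => one_le_finrank_aux hx0 hQ) hA hab
    hgA' h4
  exact CertV.mono le_rfl (by linarith) key

end

end Pool.Agent.Lib.MP_44a246_ntHU
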